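import Pool.Agent.Q252.QC9

/-!
# A `q`-congruence between a `[4k+1]`-sum and a `[3k+1]`-sum

`A` is the polynomial ring over `ℚ` in three variables `q`, `a`, `b`, and `F` its field of
fractions. With `[m] = (1 - q^m)/(1 - q)` and `(x; p)_j = ∏_{i < j} (1 - x p^i)` let, for odd `n`,

* `L n = ∑_{j ≤ (n-1)/2} b^j [4j+1] (q;q²)_j (aq;q²)_j (q/a;q²)_j (q/b;q²)_j /
    ((q²;q²)_j (aq²;q²)_j (q²/a;q²)_j (bq²;q²)_j)`,
* `R n = ∑_{j ≤ n-1} b^j q^(-j(j+1)/2) [3j+1] (q;q²)_j (aq;q²)_j (q/a;q²)_j (q/b;q)_j /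
    ((q;q)_j (aq;q)_j (q/a;q)_j (bq²;q²)_j)`,
* `M n = [n] Φ_n(q) (1 - a q^n) (a - q^n) (b - q^n)`.

The theorem: for every odd `n`, `L n - R n = M n * C / D` with polynomials `C`, `D`, where `D ≠ 0`
is coprime to `M n`. This is the full conjectured congruence.
-/

open Finset Q252.QC

namespace Pool.Agent.Results.MP_19aea4_nt.FullCongruence

/-- The polynomial ring over `ℚ` in three variables. -/
abbrev A : Type := MvPolynomial (Fin 3) ℚ

/-- The field of rational functions in three variables. -/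
abbrev F : Type := FractionRing A

/-- the variable `q` as a polynomial -/
noncomputable def pq : A := MvPolynomial.X 2
/-- the variable `a` as a polynomial -/
noncomputable def pa : A := MvPolynomial.X 1
/-- the variable `b` as a polynomial -/
noncomputable def pb : A := MvPolynomial.X 0

/-- the variable `q` as a rational function -/
noncomputable def q : F := algebraMap A F pq
/-- the variable `a` as a rational function -/
noncomputable def a : F := algebraMap A F pa
/-- the variable `b` as a rational function -/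
noncomputable def b : F := algebraMap A F pb

/-- The `q`-integer `[k] = (1 - q^k)/(1 - q)`. -/
noncomputable def br (k : ℕ) : F := (1 - q ^ k) / (1 - q)

/-- The shifted factorial `(x; p)_j = (1 - x)(1 - x p) ⋯ (1 - x p^(j-1))`. -/
noncomputable def sf (x p : F) (j : ℕ) : F := ∏ i ∈ range j, (1 - x * p ^ i)

/-- The sum `L_n`. -/
noncomputable def L (n : ℕ) : F :=
  ∑ j ∈ range ((n - 1) / 2 + 1), b ^ j * br (4 * j + 1) *
    (sf q (q ^ 2) j * sf (a * q) (q ^ 2) j * sf (q / a) (q ^ 2) j * sf (q / b) (q ^ 2) j) /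
    (sf (q ^ 2) (q ^ 2) j * sf (a * q ^ 2) (q ^ 2) j * sf (q ^ 2 / a) (q ^ 2) j *
      sf (b * q ^ 2) (q ^ 2) j)

/-- The sum `R_n`. -/
noncomputable def R (n : ℕ) : F :=
  ∑ j ∈ range n, b ^ j * (q ^ (j * (j + 1) / 2))⁻¹ * br (3 * j + 1) *
    (sf q (q ^ 2) j * sf (a * q) (q ^ 2) j * sf (q / a) (q ^ 2) j * sf (q / b) q j) /
    (sf q q j * sf (a * q) q j * sf (q / a) q j * sf (b * q ^ 2) (q ^ 2) j)

/-- The modulus `M_n = [n] Φ_n(q) (1 - a q^n) (a - q^n) (b - q^n)`. -/
noncomputable def M (n : ℕ) : A :=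
  (∑ i ∈ range n, pq ^ i) * Polynomial.aeval pq (Polynomial.cyclotomic n ℚ) *
    (1 - pa * pq ^ n) * (pa - pq ^ n) * (pb - pq ^ n)

theorem alg_ne {x : A} (hx : x ≠ 0) : algebraMap A F x ≠ 0 := by
  rw [Ne, FaithfulSMul.algebraMap_eq_zero_iff]
  exact hx

theorem ne_of_phi {x : A} (h : phi 2 (f3 x) ≠ 0) : x ≠ 0 := by
  rintro rfl
  apply h
  have h1 : f3 0 = 0 := map_zero f3
  rw [h1]
  exact map_zero (phi 2)

theorem good : Good q a b := by
  have hq : pq ≠ 0 := MvPolynomial.X_ne_zero 2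
  have ha : pa ≠ 0 := MvPolynomial.X_ne_zero 1
  have hb : pb ≠ 0 := MvPolynomial.X_ne_zero 0
  have f3p : ∀ i : ℕ, f3 (pq ^ i) = vq ^ i := fun i => by
    have h := map_pow f3 pq i
    rw [h]
    exact congrArg (fun x => x ^ i) f3_q
  have f3a : f3 pa = va := f3_a
  have f3b : f3 pb = vb := f3_b
  have f31 : f3 1 = 1 := map_one f3
  refine ⟨alg_ne hq, alg_ne ha, alg_ne hb, ?_, ?_, ?_, ?_⟩
  · intro i
    have e : (1 - q ^ (i + 1) : F) = algebraMap A F (1 - pq ^ (i + 1)) := by simp [q]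
    rw [e]
    apply alg_ne
    intro h
    have h1 := congrArg f3 h
    have h2 := map_sub f3 1 (pq ^ (i + 1))
    have h3 : f3 0 = 0 := map_zero f3
    rw [h2, f3p, f31, h3] at h1
    have : (1 - vq ^ (i + 1) : P3) = Polynomial.C (Polynomial.C (1 - Polynomial.X ^ (i + 1))) := by
      simp [vq]
    rw [this, Polynomial.C_eq_zero, Polynomial.C_eq_zero] at h1
    exact one_sub_X_pow_ne i h1
  · intro i
    have e : (1 - a * q ^ i : F) = algebraMap A F (1 - pa * pq ^ i) := by simp [q, a]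
    rw [e]
    apply alg_ne
    apply ne_of_phi
    have h2 := map_sub f3 1 (pa * pq ^ i)
    have h3 := map_mul f3 pa (pq ^ i)
    rw [h2, h3, f3p, f31, f3a]
    exact phi_u1 i
  · intro i
    have e : (a - q ^ i : F) = algebraMap A F (pa - pq ^ i) := by simp [q, a]
    rw [e]
    apply alg_ne
    apply ne_of_phi
    have h2 := map_sub f3 pa (pq ^ i)
    rw [h2, f3p, f3a]
    exact phi_u2 i
  · intro i
    have e : (1 - b * q ^ i : F) = algebraMap A F (1 - pb * pq ^ i) := by simp [q, b]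
    rw [e]
    apply alg_ne
    apply ne_of_phi
    have h2 := map_sub f3 1 (pb * pq ^ i)
    have h3 := map_mul f3 pb (pq ^ i)
    rw [h2, h3, f3p, f31, f3b]
    exact phi_u3 i

theorem diff (m : ℕ) :
    (L (2 * m + 1) - R (2 * m + 1)) * algebraMap A F (SD' m) =
      algebraMap A F (NN q' a' b' m) := by
  have h := diff_eq good m
  have e1 : algebraMap A F (SD' m) = sL q a m * sR q a m * Dn q b (2 * m) := by
    unfold SD'
    rw [map_mul, map_mul, map_sL, map_sR, map_Dn]
    rfl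
  have e2 : algebraMap A F (NN q' a' b' m) = NN q a b m := by
    rw [map_NN]
    rfl
  rw [e1, e2, ← h]
  have e3 : (2 * m + 1 - 1) / 2 + 1 = m + 1 := by omega
  unfold L R
  rw [e3]
  rfl

theorem SD_ne_zero (m : ℕ) : SD' m ≠ 0 := by
  intro h
  apply h3_SD m
  rw [← f3_SD, h]
  have h1 : f3 0 = 0 := map_zero f3
  rw [h1]
  exact map_zero (h3 (2 * m + 1))

/-- **`L_n ≡ R_n` modulo `M_n = [n] Φ_n(q) (1 - a q^n) (a - q^n) (b - q^n)` for every odd `n`.** -/
theorem result (n : ℕ) (hn : Odd n) :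
    ∃ C D : A, D ≠ 0 ∧ IsRelPrime D (M n) ∧
      L n - R n = algebraMap A F (M n) * algebraMap A F C / algebraMap A F D := by
  obtain ⟨m, rfl⟩ := hn
  have hd := diff m
  rcases Nat.eq_zero_or_pos m with rfl | hm
  · refine ⟨0, 1, one_ne_zero, isRelPrime_one_left, ?_⟩
    have h0 : NN q' a' b' 0 = 0 := by simp [NN, sL, sR, PL, PR, E1]
    rw [h0, map_zero] at hd
    have h1 := (mul_eq_zero.1 hd).resolve_right (alg_ne (SD_ne_zero 0))
    rw [h1]
    simp
  · obtain ⟨p, r, hpr, hx⟩ := IsFractionRing.exists_reduced_fraction (A := A) (K := F)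
      (L (2 * m + 1) - R (2 * m + 1))
    have hr : (r : A) ≠ 0 := nonZeroDivisors.coe_ne_zero r
    have hr' := alg_ne hr
    have h1 : L (2 * m + 1) - R (2 * m + 1) = algebraMap A F p / algebraMap A F r := by
      rw [← hx, IsFractionRing.mk'_eq_div]
    have h2 : p * SD' m = r * NN q' a' b' m := by
      apply FaithfulSMul.algebraMap_injective A F
      rw [map_mul, map_mul, ← hd, h1]
      field_simp
    have h3 : M (2 * m + 1) ∣ p := M'_dvd m hm p r h2
    obtain ⟨C, hC⟩ := h3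
    refine ⟨C, r, hr, ?_, ?_⟩
    · intro z hz1 hz2
      exact hpr (hz2.trans ⟨C, hC⟩) hz1
    · rw [h1, hC, map_mul]

end Pool.Agent.Results.MP_19aea4_nt.FullCongruence
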